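import Pool.Agent.Mg.F890ef7p.G1a031d

namespace Pool.Agent.Results.MP_890ef7_an.Full

open Pool.Agent.MP_890ef7_an

universe v

/-- Property (T) passes to close II_1 factors, with a universal bound. -/
theorem result :
    ∃ ε : ℝ, 0 < ε ∧ ∀ (H : Type v) [NormedAddCommGroup H] [InnerProductSpace ℂ H]
      [CompleteSpace H] (M N : VonNeumannAlgebra H),
      IsII1 M → IsII1 N → HasT.{v, v} M → kkDist M N < ε → HasT.{v, v} N :=
  ⟨1 / 10 ^ 23, by norm_num, fun _ _ _ _ M N hM hN hT hd => KK.main M N hM hN hT hd⟩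

end Pool.Agent.Results.MP_890ef7_an.Full
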