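import Pool.Agent.Mg.F890ef7p.G07232a

namespace Pool.Agent.Results.MP_890ef7_an.KazhdanGenerated

open Pool.Agent.MP_890ef7_an

universe u v w

/-- Every von Neumann algebra close to one generated by a projective unitary representation of a
Kazhdan group has property (T), with a bound depending only on the group. -/
theorem result (Γ : Type u) [Group Γ] (hΓ : KazhdanT Γ) :
    ∃ ε : ℝ, 0 < ε ∧ ∀ (H : Type v) [NormedAddCommGroup H] [InnerProductSpace ℂ H]
      [CompleteSpace H] (M N : VonNeumannAlgebra H),
      ProjGenerated Γ M → kkDist M N < ε → HasT.{v, w} N := by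
  obtain ⟨ε, hε, h⟩ := main.{u, v, w} hΓ
  exact ⟨ε, hε, fun H _ _ _ M N ⟨π, h1, h2, h3⟩ => h H M N π h1 h2 h3⟩

end Pool.Agent.Results.MP_890ef7_an.KazhdanGenerated
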