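import Pool.Agent.Mg.F890ef7p.G3b337e

namespace Pool.Agent.Results.MP_890ef7_an.RigidCommensurable

open Pool.Agent.MP_890ef7_an

universe v w

/-- Every von Neumann algebra close to one that is commensurable with a rigidly generated von
Neumann algebra has property (T). -/
theorem result (H H' : Type v) [NormedAddCommGroup H] [InnerProductSpace ℂ H] [CompleteSpace H]
    [NormedAddCommGroup H'] [InnerProductSpace ℂ H'] [CompleteSpace H']
    (P : VonNeumannAlgebra H') (M : VonNeumannAlgebra H) (hP : RigidlyGenerated P)
    (hPM : Commensurable P M) :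
    ∃ ε : ℝ, 0 < ε ∧ ∀ N : VonNeumannAlgebra H, kkDist M N < ε → HasT.{v, w} N :=
  main_h1 hP hPM

end Pool.Agent.Results.MP_890ef7_an.RigidCommensurable
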